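import Pool.Agent.Helper81.LT.Inc

set_option autoImplicit false

/-!
# Packet BPR of MP_c20641_lc: bounded truth in `ℕ` is primitive recursive
-/

namespace Pool.Agent.Helper31.LT

open FirstOrder Language Pool.Agent.Helper81.LT

/-- the reversed valuation. -/
def val (n : ℕ) (w : List ℕ) : Fin n → ℕ := fun i => w.getD (n - 1 - i) 0

lemma term_pr (n : ℕ) (t : LA.Term (Empty ⊕ Fin n)) :
    Primrec (fun p : List ℕ × List ℕ => t.realize (Sum.elim Empty.elim (val n p.1))) := by
  induction t with
  | var i =>
    rcases i with e | i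
    · exact e.elim
    · have h : Primrec (fun p : List ℕ × List ℕ => p.1.getD (n - 1 - i) 0) :=
        (Primrec.list_getD 0).comp Primrec.fst (Primrec.const _)
      exact h
  | @func l f ts ih =>
    match l, f, ts, ih with
    | _, AFun.zero, ts, ih => exact Primrec.const 0
    | _, AFun.one, ts, ih => exact Primrec.const 1
    | _, AFun.add, ts, ih => exact Primrec.nat_add.comp (ih 0) (ih 1)
    | _, AFun.mul, ts, ih => exact Primrec.nat_mul.comp (ih 0) (ih 1)

lemma snoc_val (n : ℕ) (w : List ℕ) (x : ℕ) :
    (Fin.snoc (val n w) x : Fin (n + 1) → ℕ) = val (n + 1) (x :: w) := by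
  funext i
  refine Fin.lastCases ?_ (fun i => ?_) i
  · rw [Fin.snoc_last]
    unfold val
    have : n + 1 - 1 - (Fin.last n : ℕ) = 0 := by simp
    rw [this, List.getD_cons_zero]
  · rw [Fin.snoc_castSucc]
    unfold val
    have : n + 1 - 1 - (i.castSucc : ℕ) = (n - 1 - i) + 1 := by
      have := i.isLt
      simp only [Fin.val_castSucc]
      omega
    rw [this, List.getD_cons_succ]

lemma tail_val (l : List ℕ) (k : ℕ) : l.getD (k + 1) 0 = l.tail.getD k 0 := by
  cases l with
  | nil => simp
  | cons a l => simp

/-- **Packet BPR**. -/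
theorem bpr : BPR := by
  intro n φ
  change PrimrecPred (fun p : List ℕ × List ℕ => Bd φ (fun k => p.2.getD k 0) (val n p.1))
  induction φ with
  | falsum =>
    refine PrimrecPred.of_eq
      (Primrec.eq.comp (Primrec.const 0) (Primrec.const 1) :
        PrimrecPred fun _ : List ℕ × List ℕ => (0 : ℕ) = 1) fun p => ?_
    exact ⟨fun h => absurd h (by norm_num), fun h => h.elim⟩
  | @equal n t s =>
    exact Primrec.eq.comp (term_pr n t) (term_pr n s)
  | @rel n l R ts =>
    match l, R, ts with
    | _, ARel.lt, ts => exact Primrec.nat_lt.comp (term_pr n (ts 0)) (term_pr n (ts 1))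
  | @imp n φ ψ ih1 ih2 =>
    refine PrimrecPred.of_eq (ih1.not.or ih2) fun p => ?_
    exact imp_iff_not_or.symm
  | @all n φ ih =>
    have hR : PrimrecRel (fun (x : ℕ) (p : List ℕ × List ℕ) =>
        Bd φ (fun k => p.2.tail.getD k 0) (val (n + 1) (x :: p.1))) := by
      have hf : Primrec (fun q : ℕ × (List ℕ × List ℕ) =>
          ((q.1 :: q.2.1, q.2.2.tail) : List ℕ × List ℕ)) :=
        Primrec.pair (Primrec.list_cons.comp Primrec.fst (Primrec.fst.comp Primrec.snd))
          (Primrec.list_tail.comp (Primrec.snd.comp Primrec.snd))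
      exact ih.comp hf
    have h1 : Primrec (fun p : List ℕ × List ℕ => p.2.getD 0 0) :=
      (Primrec.list_getD 0).comp Primrec.snd (Primrec.const 0)
    have h3 : PrimrecRel (fun (m : ℕ) (p : List ℕ × List ℕ) => ∀ x < m,
        Bd φ (fun k => p.2.tail.getD k 0) (val (n + 1) (x :: p.1))) :=
      (hR.forall_mem_list.comp (Primrec.list_range.comp Primrec.fst) Primrec.snd).of_eq
        (fun q => by simp only [List.mem_range])
    have h2 := PrimrecRel.comp h3 h1 Primrec.id
    refine PrimrecPred.of_eq h2 fun p => ?_
    constructor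
    · intro h x hx
      have := h x hx
      rw [snoc_val]
      simpa only [tail_val, id] using this
    · intro h x hx
      have := h x hx
      rw [snoc_val] at this
      simpa only [tail_val, id] using this

end Pool.Agent.Helper31.LT
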