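import Pool.Agent.Helper81.LT.Mod

set_option autoImplicit false

/-!
# Packet OVER of MP_c20641_lc: least number principle and overspill
-/

namespace Pool.Agent.Helper31.LT

open FirstOrder Language Pool.Agent.Helper81.LT

attribute [local instance] stdStr

section

variable {M : Type} [CommSemiring M] [LinearOrder M] [IsStrictOrderedRing M] [PAM M]

lemma lnp (P : M → Prop) (hP : Dfn (fun v : Unit → M => P (v ()))) (hex : ∃ x, P x) :
    ∃ x, P x ∧ ∀ y, y < x → ¬ P y := by
  obtain ⟨x0, hx0⟩ := hex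
  by_contra hno
  have hno' : ∀ x, P x → ∃ y, y < x ∧ P y := by
    intro x hx
    by_contra h
    exact hno ⟨x, hx, fun y hy hPy => h ⟨y, hy, hPy⟩⟩
  have hQ : ∀ y : M, ∀ z, z < y + 1 → ¬ P z := by
    apply PAM.ind (fun y : M => ∀ z, z < y + 1 → ¬ P z)
    · apply Dfn.ball (P := fun (_ : Unit → M) z => ¬ P z) (f := fun v => v () + 1)
      · exact (Tm.var ()).add Tm.one
      · exact (hP.comp (fun _ => Sum.inr ())).not
    · intro z hz hPz
      obtain ⟨y, hy, _⟩ := hno' z hPz
      have h1 := PAM.succ_le y z hy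
      have h0 := PAM.zero_le y
      have h2 : (0 : M) + 1 ≤ y + 1 := by gcongr
      exact absurd (h2.trans h1) (not_le.2 hz)
    · intro x hx z hz hPz
      obtain ⟨y, hy, hPy⟩ := hno' z hPz
      have h1 := PAM.succ_le y z hy
      refine hx y ?_ hPy
      exact lt_of_add_lt_add_right (h1.trans_lt hz)
  exact hQ x0 x0 (lt_add_one x0) hx0

lemma std (n : ℕ) : ∀ y : M, y ≤ n → ∃ k : ℕ, y = k := by
  induction n with
  | zero =>
    intro y hy
    refine ⟨0, le_antisymm hy ?_⟩
    simpa using PAM.zero_le y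
  | succ n ih =>
    intro y hy
    rcases le_or_gt y (n : M) with h | h
    · exact ih y h
    · refine ⟨n + 1, le_antisymm hy ?_⟩
      have := PAM.succ_le (n : M) y h
      simpa using this

lemma spill (P : M → Prop) (hP : Dfn (fun v : Unit → M => P (v ())))
    (hns : ∃ a : M, ∀ n : ℕ, (n : M) < a) (hn : ∀ n : ℕ, P n) :
    ∃ a : M, (∀ n : ℕ, (n : M) < a) ∧ P a := by
  by_cases hall : ∀ z, P z
  · obtain ⟨a, ha⟩ := hns
    exact ⟨a, ha, hall a⟩
  · have hall' : ∃ z, ¬ P z := by
      by_contra h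
      exact hall fun z => by_contra fun hz => h ⟨z, hz⟩
    obtain ⟨y, hy, hmin⟩ := lnp (fun z => ¬ P z) hP.not hall'
    have hyns : ∀ n : ℕ, (n : M) < y := by
      intro n
      by_contra h
      obtain ⟨k, hk⟩ := std n y (not_lt.1 h)
      exact hy (hk ▸ hn k)
    have h1 : (1 : M) ≤ y := by
      have := hyns 1
      rw [Nat.cast_one] at this
      exact this.le
    obtain ⟨w, hw⟩ := PAM.exists_add 1 y h1
    refine ⟨w, fun n => ?_, ?_⟩
    · have := hyns (n + 1)
      rw [hw, Nat.cast_add, Nat.cast_one, add_comm] at this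
      exact lt_of_add_lt_add_left this
    · by_contra h
      refine hmin w ?_ h
      rw [hw, add_comm]
      exact lt_add_one w

end

/-- **Packet OVER**. -/
theorem overThm : OVER := by
  intro M _ _ _ _
  exact ⟨fun P hP hex => lnp P hP hex, fun P hP hns hn => spill P hP hns hn⟩

end Pool.Agent.Helper31.LT
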